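import Pool.Agent.Y142.SU.Stm

/-!
# Project Y142-SU, the statement PERF: the special unitary Lie algebra is perfect
-/

set_option autoImplicit false

namespace Pool.Agent.Y405.SU

open Matrix Pool.Agent.Y142.SU

/-! ## Modules over a semisimple algebra -/

section gen

variable {F R V : Type} [Field F] [Ring R] [Algebra F R] [IsSemisimpleRing R]
  [AddCommGroup V] [Module F V] [FiniteDimensional F V] [Module R V] [IsScalarTower F R V]

/-- double commutant -/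
theorem dc (T : V →ₗ[F] V) (hT : ∀ (f : Module.End R V) (v : V), T (f v) = f (T v)) :
    ∃ r : R, ∀ v, T v = r • v := by
  classical
  let f : Module.End (Module.End R V) V :=
    { toFun := T
      map_add' := T.map_add
      map_smul' := fun g v => hT g v }
  let b := Module.finBasis F V
  obtain ⟨r, hr⟩ := jacobson_density f (Finset.univ.image b)
  refine ⟨r, ?_⟩
  have h1 : T = Algebra.lsmul F F V r := by
    refine b.ext fun i => ?_
    exact hr (b i) (Finset.mem_image_of_mem _ (Finset.mem_univ i))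
  intro v
  rw [h1]
  rfl

variable [CharZero F]

/-- the trace form on the endomorphisms is nondegenerate -/
theorem nd (Z : Module.End R V) (h : ∀ Y : Module.End R V,
    LinearMap.trace F V ((Y * Z).restrictScalars F) = 0) : Z = 0 := by
  have hfin : Module.Finite R V := Module.Finite.of_restrictScalars_finite F R V
  have hss : IsSemisimpleRing (Module.End R V) := IsSemisimpleRing.moduleEnd R V
  obtain ⟨e, he, hZe⟩ := IsSemisimpleRing.ideal_eq_span_idempotent (Ideal.span {Z})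
  have h1 : e ∈ Ideal.span {Z} := by
    rw [hZe]
    exact Ideal.mem_span_singleton_self e
  obtain ⟨Y, hY⟩ := Ideal.mem_span_singleton'.mp h1
  have h2 : IsIdempotentElem (e.restrictScalars F) := by
    have h3 : (e * e).restrictScalars F = e.restrictScalars F := by rw [he]
    exact h3
  have h3 : LinearMap.trace F V (e.restrictScalars F) = 0 := by
    rw [← hY]
    exact h Y
  have h4 := (LinearMap.IsIdempotentElem.trace_eq_zero_iff h2).mp h3
  have h5 : e = 0 := by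
    refine LinearMap.ext fun v => ?_
    exact LinearMap.congr_fun h4 v
  have h6 : Z ∈ Ideal.span {e} := by
    rw [← hZe]
    exact Ideal.mem_span_singleton_self Z
  rw [h5] at h6
  obtain ⟨W, hW⟩ := Ideal.mem_span_singleton'.mp h6
  rw [← hW, mul_zero]

omit [IsSemisimpleRing R] in
/-- the trace form on the ring is nondegenerate -/
theorem nd' [IsSemisimpleRing R] (a : R) (h : ∀ b : R,
    LinearMap.trace F V (Algebra.lsmul F F V (b * a)) = 0) (v : V) : a • v = 0 := by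
  obtain ⟨e, he, hae⟩ := IsSemisimpleRing.ideal_eq_span_idempotent (Ideal.span {a})
  have h1 : e ∈ Ideal.span {a} := by
    rw [hae]
    exact Ideal.mem_span_singleton_self e
  obtain ⟨b, hb⟩ := Ideal.mem_span_singleton'.mp h1
  have h2 : IsIdempotentElem (Algebra.lsmul F F V e) := by
    have h3 : Algebra.lsmul F F V (e * e) = Algebra.lsmul F F V e := by rw [he]
    rwa [map_mul] at h3
  have h3 : LinearMap.trace F V (Algebra.lsmul F F V e) = 0 := by
    rw [← hb]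
    exact h b
  have h4 := (LinearMap.IsIdempotentElem.trace_eq_zero_iff h2).mp h3
  have h6 : a ∈ Ideal.span {e} := by
    rw [← hae]
    exact Ideal.mem_span_singleton_self a
  obtain ⟨c, hc⟩ := Ideal.mem_span_singleton'.mp h6
  have h5 : e • v = 0 := LinearMap.congr_fun h4 v
  rw [← hc, mul_smul, h5, smul_zero]

end gen

/-! ## Matrices -/

section mat

variable {F : Type} [Field F] {N : ℕ} (𝒞 : Subalgebra F (Matrix (Fin N) (Fin N) F))

/-- the commutant -/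
def CT : Submodule F (Matrix (Fin N) (Fin N) F) where
  carrier := {P | ∀ A ∈ 𝒞, P * A = A * P}
  zero_mem' := by
    intro A _
    rw [zero_mul, mul_zero]
  add_mem' := by
    intro P Q hP hQ A hA
    rw [add_mul, mul_add, hP A hA, hQ A hA]
  smul_mem' := by
    intro c P hP A hA
    rw [smul_mul_assoc, mul_smul_comm, hP A hA]

variable {𝒞}

theorem mem_CT {P : Matrix (Fin N) (Fin N) F} : P ∈ CT 𝒞 ↔ ∀ A ∈ 𝒞, P * A = A * P := Iff.rfl

theorem mul_CT {P Q : Matrix (Fin N) (Fin N) F} (hP : P ∈ CT 𝒞) (hQ : Q ∈ CT 𝒞) :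
    P * Q ∈ CT 𝒞 := by
  intro A hA
  rw [mul_assoc, hQ A hA, ← mul_assoc, hP A hA, mul_assoc]

/-- reduced commutative algebras are semisimple -/
theorem ss (hcomm : ∀ A ∈ 𝒞, ∀ B ∈ 𝒞, A * B = B * A) (hred : ∀ A ∈ 𝒞, IsNilpotent A → A = 0) :
    IsSemisimpleRing 𝒞 := by
  let _ : CommRing 𝒞 :=
    { (inferInstance : Ring 𝒞) with mul_comm := fun A B => Subtype.ext (hcomm A.1 A.2 B.1 B.2) }
  have h1 : IsArtinianRing 𝒞 := IsArtinianRing.of_finite F 𝒞
  have h2 : IsReduced 𝒞 := by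
    refine ⟨fun A hA => ?_⟩
    apply Subtype.ext
    obtain ⟨n, hn⟩ := hA
    exact hred A.1 A.2 ⟨n, congrArg Subtype.val hn⟩
  exact IsArtinianRing.isSemisimpleRing_of_isReduced 𝒞

/-- double commutant theorem -/
theorem dcm (hcomm : ∀ A ∈ 𝒞, ∀ B ∈ 𝒞, A * B = B * A) (hred : ∀ A ∈ 𝒞, IsNilpotent A → A = 0)
    (Z : Matrix (Fin N) (Fin N) F) (hZ : ∀ P ∈ CT 𝒞, Z * P = P * Z) : Z ∈ 𝒞 := by
  have hss := ss hcomm hred
  have hsm : ∀ (A : 𝒞) (v : Fin N → F), A • v = A.1 *ᵥ v := fun A v => rfl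
  obtain ⟨r, hr⟩ := dc (R := 𝒞) (Matrix.toLin' Z) (by
    intro f v
    have h1 : LinearMap.toMatrix' (f.restrictScalars F) ∈ CT 𝒞 := by
      intro A hA
      apply Matrix.toLin'.injective
      rw [Matrix.toLin'_mul, Matrix.toLin'_mul, Matrix.toLin'_toMatrix']
      refine LinearMap.ext fun w => ?_
      exact f.map_smul (⟨A, hA⟩ : 𝒞) w
    have h2 := hZ _ h1
    have h3 := congrArg (fun M => Matrix.toLin' M v) h2
    simp only [Matrix.toLin'_mul, Matrix.toLin'_toMatrix'] at h3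
    exact h3)
  have h4 : Z = r.1 := by
    apply Matrix.toLin'.injective
    refine LinearMap.ext fun v => ?_
    rw [hr v, hsm, Matrix.toLin'_apply]
  rw [h4]
  exact r.2

variable [CharZero F]

/-- the trace form on the commutant is nondegenerate -/
theorem ndm (hcomm : ∀ A ∈ 𝒞, ∀ B ∈ 𝒞, A * B = B * A) (hred : ∀ A ∈ 𝒞, IsNilpotent A → A = 0)
    (Z : Matrix (Fin N) (Fin N) F) (hZ : Z ∈ CT 𝒞)
    (h : ∀ Y ∈ CT 𝒞, (Y * Z).trace = 0) : Z = 0 := by
  have hss := ss hcomm hred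
  have hsm : ∀ (A : 𝒞) (v : Fin N → F), A • v = A.1 *ᵥ v := fun A v => rfl
  let z : Module.End 𝒞 (Fin N → F) :=
    { toFun := fun v => Z *ᵥ v
      map_add' := fun v w => mulVec_add Z v w
      map_smul' := fun A v => by
        rw [RingHom.id_apply, hsm, hsm, mulVec_mulVec, mulVec_mulVec, hZ A.1 A.2] }
  have h0 : z = 0 := by
    refine nd (F := F) z fun Y => ?_
    have h1 : LinearMap.toMatrix' (Y.restrictScalars F) ∈ CT 𝒞 := by
      intro A hA
      apply Matrix.toLin'.injective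
      rw [Matrix.toLin'_mul, Matrix.toLin'_mul, Matrix.toLin'_toMatrix']
      refine LinearMap.ext fun w => ?_
      exact Y.map_smul (⟨A, hA⟩ : 𝒞) w
    have h2 := h _ h1
    rw [← Matrix.trace_toLin'_eq, Matrix.toLin'_mul, Matrix.toLin'_toMatrix'] at h2
    exact h2
  apply Matrix.toLin'.injective
  refine LinearMap.ext fun v => ?_
  rw [Matrix.toLin'_apply, map_zero, LinearMap.zero_apply]
  exact LinearMap.congr_fun h0 v

/-- the trace form on the coefficients is nondegenerate -/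
theorem ndc (hcomm : ∀ A ∈ 𝒞, ∀ B ∈ 𝒞, A * B = B * A) (hred : ∀ A ∈ 𝒞, IsNilpotent A → A = 0)
    (A : Matrix (Fin N) (Fin N) F) (hA : A ∈ 𝒞)
    (h : ∀ B ∈ 𝒞, (B * A).trace = 0) : A = 0 := by
  have hss := ss hcomm hred
  have hsm : ∀ (A : 𝒞) (v : Fin N → F), A • v = A.1 *ᵥ v := fun A v => rfl
  apply Matrix.toLin'.injective
  refine LinearMap.ext fun v => ?_
  rw [Matrix.toLin'_apply, map_zero, LinearMap.zero_apply]
  refine nd' (F := F) (⟨A, hA⟩ : 𝒞) (fun B => ?_) v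
  have h2 := h B.1 B.2
  rw [← Matrix.trace_toLin'_eq] at h2
  exact h2

/-- duality for the commutant -/
theorem dualCT (hcomm : ∀ A ∈ 𝒞, ∀ B ∈ 𝒞, A * B = B * A)
    (hred : ∀ A ∈ 𝒞, IsNilpotent A → A = 0) (f : Matrix (Fin N) (Fin N) F →ₗ[F] F) :
    ∃ Z ∈ CT 𝒞, ∀ Y ∈ CT 𝒞, f Y = (Y * Z).trace := by
  let Φ : CT 𝒞 →ₗ[F] Module.Dual F (CT 𝒞) := LinearMap.mk₂ F
    (fun Z Y => ((Y : Matrix (Fin N) (Fin N) F) * Z).trace)
    (fun Z Z' Y => by rw [Submodule.coe_add, mul_add, trace_add])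
    (fun c Z Y => by rw [Submodule.coe_smul, mul_smul_comm, trace_smul])
    (fun Z Y Y' => by rw [Submodule.coe_add, add_mul, trace_add])
    (fun c Z Y => by rw [Submodule.coe_smul, smul_mul_assoc, trace_smul])
  have hinj : Function.Injective Φ := by
    rw [injective_iff_map_eq_zero]
    intro Z hZ
    apply Subtype.ext
    refine ndm hcomm hred Z.1 Z.2 fun Y hY => ?_
    exact LinearMap.congr_fun hZ ⟨Y, hY⟩
  have hsurj : Function.Surjective Φ :=
    (LinearMap.injective_iff_surjective_of_finrank_eq_finrank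
      (Subspace.dual_finrank_eq (K := F) (V := CT 𝒞)).symm).mp hinj
  obtain ⟨Z, hZ⟩ := hsurj (f.comp (CT 𝒞).subtype)
  refine ⟨Z.1, Z.2, fun Y hY => ?_⟩
  exact (LinearMap.congr_fun hZ ⟨Y, hY⟩).symm

/-- the trace projection to the coefficients -/
theorem projC (hcomm : ∀ A ∈ 𝒞, ∀ B ∈ 𝒞, A * B = B * A)
    (hred : ∀ A ∈ 𝒞, IsNilpotent A → A = 0) (P : Matrix (Fin N) (Fin N) F) :
    ∃ A ∈ 𝒞, ∀ B ∈ 𝒞, ((P - A) * B).trace = 0 := by
  let Φ : 𝒞 →ₗ[F] Module.Dual F 𝒞 := LinearMap.mk₂ F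
    (fun Z Y => ((Y : Matrix (Fin N) (Fin N) F) * Z).trace)
    (fun Z Z' Y => by rw [Subalgebra.coe_add, mul_add, trace_add])
    (fun c Z Y => by rw [Subalgebra.coe_smul, mul_smul_comm, trace_smul])
    (fun Z Y Y' => by rw [Subalgebra.coe_add, add_mul, trace_add])
    (fun c Z Y => by rw [Subalgebra.coe_smul, smul_mul_assoc, trace_smul])
  have hinj : Function.Injective Φ := by
    rw [injective_iff_map_eq_zero]
    intro Z hZ
    apply Subtype.ext
    refine ndc hcomm hred Z.1 Z.2 fun Y hY => ?_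
    exact LinearMap.congr_fun hZ ⟨Y, hY⟩
  have hsurj : Function.Surjective Φ :=
    (LinearMap.injective_iff_surjective_of_finrank_eq_finrank
      (Subspace.dual_finrank_eq (K := F) (V := 𝒞)).symm).mp hinj
  let g : 𝒞 →ₗ[F] F :=
    { toFun := fun B => (P * B.1).trace
      map_add' := fun B B' => by rw [Subalgebra.coe_add, mul_add, trace_add]
      map_smul' := fun c B => by
        rw [Subalgebra.coe_smul, mul_smul_comm, trace_smul]
        rfl }
  obtain ⟨Z, hZ⟩ := hsurj g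
  refine ⟨Z.1, Z.2, fun B hB => ?_⟩
  have h1 : (B * Z.1).trace = (P * B).trace := LinearMap.congr_fun hZ ⟨B, hB⟩
  rw [sub_mul, trace_sub, ← h1, hcomm Z.1 Z.2 B hB, sub_self]

/-- elements of trace zero against the coefficients are sums of commutators -/
theorem sl_span (hcomm : ∀ A ∈ 𝒞, ∀ B ∈ 𝒞, A * B = B * A)
    (hred : ∀ A ∈ 𝒞, IsNilpotent A → A = 0) (X : Matrix (Fin N) (Fin N) F) (hX : X ∈ CT 𝒞)
    (hX0 : ∀ A ∈ 𝒞, (X * A).trace = 0) :
    X ∈ Submodule.span F {Z : Matrix (Fin N) (Fin N) F | ∃ P Q : Matrix (Fin N) (Fin N) F,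
      (P ∈ CT 𝒞 ∧ ∀ A ∈ 𝒞, (P * A).trace = 0) ∧ (Q ∈ CT 𝒞 ∧ ∀ A ∈ 𝒞, (Q * A).trace = 0) ∧
      Z = P * Q - Q * P} := by
  by_contra hcon
  obtain ⟨f, hf1, hf2⟩ := Submodule.exists_dual_map_eq_bot_of_notMem hcon inferInstance
  obtain ⟨Z, hZ, hfZ⟩ := dualCT hcomm hred f
  -- `f` vanishes on all commutators
  have h1 : ∀ P ∈ CT 𝒞, ∀ Q ∈ CT 𝒞, f (P * Q - Q * P) = 0 := by
    intro P hP Q hQ
    obtain ⟨A, hA, hPA⟩ := projC hcomm hred P
    obtain ⟨B, hB, hQB⟩ := projC hcomm hred Q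
    have hAC : ∀ C ∈ 𝒞, C ∈ CT 𝒞 := fun C hC D hD => hcomm C hC D hD
    have h2 : P * Q - Q * P = (P - A) * (Q - B) - (Q - B) * (P - A) := by
      have e1 := hP B hB
      have e2 := hQ A hA
      have e3 := hcomm A hA B hB
      have e4 : (P - A) * (Q - B) - (Q - B) * (P - A) =
        P * Q - Q * P - (P * B - B * P) + (Q * A - A * Q) + (A * B - B * A) := by noncomm_ring
      rw [e4, e1, e2, e3, sub_self, sub_self, sub_self, sub_zero, add_zero, add_zero]
    have h3 : P * Q - Q * P ∈ Submodule.span F {Z : Matrix (Fin N) (Fin N) F |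
        ∃ P Q : Matrix (Fin N) (Fin N) F,
        (P ∈ CT 𝒞 ∧ ∀ A ∈ 𝒞, (P * A).trace = 0) ∧ (Q ∈ CT 𝒞 ∧ ∀ A ∈ 𝒞, (Q * A).trace = 0) ∧
        Z = P * Q - Q * P} := by
      apply Submodule.subset_span
      exact ⟨P - A, Q - B, ⟨(CT 𝒞).sub_mem hP (hAC A hA), hPA⟩,
        ⟨(CT 𝒞).sub_mem hQ (hAC B hB), hQB⟩, h2⟩
    have h4 := Submodule.mem_map_of_mem (f := f) h3
    rw [hf2] at h4
    exact (Submodule.mem_bot F).mp h4
  -- so `Z` is central
  have h2 : ∀ P ∈ CT 𝒞, Z * P = P * Z := by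
    intro P hP
    rw [← sub_eq_zero]
    refine ndm hcomm hred _ ((CT 𝒞).sub_mem (mul_CT hZ hP) (mul_CT hP hZ)) fun Q hQ => ?_
    have h3 := h1 P hP Q hQ
    rw [hfZ _ ((CT 𝒞).sub_mem (mul_CT hP hQ) (mul_CT hQ hP)), sub_mul, trace_sub] at h3
    have h4 : (P * Q * Z).trace = (Q * (Z * P)).trace := by
      rw [mul_assoc, trace_mul_comm, mul_assoc]
    rw [mul_sub, trace_sub, ← h4, ← mul_assoc]
    exact h3
  have h3 := dcm hcomm hred Z h2
  rw [hfZ X hX, hX0 Z h3] at hf1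
  exact hf1 rfl

end mat

theorem t : S_PERF := by
  intro F _ _ N J 𝒞 hH hred X hX
  obtain ⟨hJs, hJd, hcomm, hstar, A0, hA0, A0', hA0', hAA, hdet⟩ := hH
  obtain ⟨hX1, hX2, hX3⟩ := hX
  have hJu : IsUnit J.det := isUnit_iff_ne_zero.mpr hJd
  have hJJ : J * J⁻¹ = 1 := mul_nonsing_inv J hJu
  have hJJ' : J⁻¹ * J = 1 := nonsing_inv_mul J hJu
  -- the sign
  obtain ⟨ε, hε, hJε⟩ : ∃ ε : F, ε * ε = 1 ∧ Jᵀ = ε • J := by
    rcases hJs with h | h
    · exact ⟨1, by ring, by rw [h, one_smul]⟩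
    · exact ⟨-1, by ring, by rw [h, neg_one_smul]⟩
  -- the involution on the coefficients
  have hinv : ∀ A A' : Matrix (Fin N) (Fin N) F, Aᵀ * J = J * A' → A'ᵀ * J = J * A := by
    intro A A' h
    have h1 := congrArg Matrix.transpose h
    rw [transpose_mul, transpose_mul, transpose_transpose, hJε, smul_mul_assoc,
      mul_smul_comm] at h1
    have h2 := congrArg (fun M => ε • M) h1
    simp only [smul_smul, hε, one_smul] at h2
    exact h2.symm
  -- the adjoint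
  obtain ⟨ad, had⟩ : ∃ ad : Matrix (Fin N) (Fin N) F → Matrix (Fin N) (Fin N) F,
      ad = fun P => J⁻¹ * Pᵀ * J := ⟨_, rfl⟩
  have hadd : ∀ P, ad P = J⁻¹ * Pᵀ * J := fun P => by rw [had]
  have had_sub : ∀ P Q, ad (P - Q) = ad P - ad Q := by
    intro P Q
    rw [hadd, hadd, hadd, transpose_sub, mul_sub, sub_mul]
  have had_add : ∀ P Q, ad (P + Q) = ad P + ad Q := by
    intro P Q
    rw [hadd, hadd, hadd, transpose_add, mul_add, add_mul]
  have had_smul : ∀ (c : F) P, ad (c • P) = c • ad P := by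
    intro c P
    rw [hadd, hadd, transpose_smul, mul_smul_comm, smul_mul_assoc]
  have had_mul : ∀ P Q, ad (P * Q) = ad Q * ad P := by
    intro P Q
    rw [hadd, hadd, hadd, transpose_mul]
    have : J⁻¹ * Qᵀ * J * (J⁻¹ * Pᵀ * J) = J⁻¹ * Qᵀ * (J * J⁻¹) * Pᵀ * J := by noncomm_ring
    rw [this, hJJ, mul_one]
    noncomm_ring
  have had_ad : ∀ P, ad (ad P) = P := by
    intro P
    rw [hadd, hadd, transpose_mul, transpose_mul, transpose_transpose, transpose_nonsing_inv, hJε]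
    have h1 : (ε • J)⁻¹ = ε • J⁻¹ := by
      apply inv_eq_right_inv
      rw [smul_mul_smul_comm, hε, hJJ, one_smul]
    rw [h1]
    have h2 : J⁻¹ * (ε • J * (P * ε • J⁻¹)) * J = (ε * ε) • ((J⁻¹ * J) * P * (J⁻¹ * J)) := by
      simp only [smul_mul_assoc, mul_smul_comm, smul_smul]
      congr 1
      noncomm_ring
    rw [h2, hε, hJJ', one_mul, mul_one, one_smul]
  have hadA : ∀ A A' : Matrix (Fin N) (Fin N) F, Aᵀ * J = J * A' → ad A = A' := by
    intro A A' h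
    rw [hadd, mul_assoc, h, ← mul_assoc, hJJ', one_mul]
  have hadC : ∀ A ∈ 𝒞, ad A ∈ 𝒞 := by
    intro A hA
    obtain ⟨A', hA', h⟩ := hstar A hA
    rw [hadA A A' h]
    exact hA'
  have had_CT : ∀ P ∈ CT 𝒞, ad P ∈ CT 𝒞 := by
    intro P hP A hA
    have h1 := hP (ad A) (hadC A hA)
    have h2 := congrArg ad h1
    rw [had_mul, had_mul, had_ad] at h2
    exact h2.symm
  have had_tr : ∀ P, (ad P).trace = P.trace := by
    intro P
    rw [hadd, trace_mul_comm, ← mul_assoc, hJJ, one_mul, trace_transpose]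
  have had_tr0 : ∀ P, (∀ A ∈ 𝒞, (P * A).trace = 0) → ∀ A ∈ 𝒞, (ad P * A).trace = 0 := by
    intro P hP A hA
    have h1 : ad P * A = ad (ad A * P) := by rw [had_mul, had_ad]
    rw [h1, had_tr, trace_mul_comm]
    exact hP _ (hadC A hA)
  -- characterization of the Lie algebra
  have hLie : ∀ Y : Matrix (Fin N) (Fin N) F, Y ∈ CT 𝒞 → ad Y = -Y →
      (∀ A ∈ 𝒞, (Y * A).trace = 0) → SULie J 𝒞 Y := by
    intro Y h1 h2 h3
    refine ⟨h1, ?_, h3⟩
    have h4 : J * ad Y = Yᵀ * J := by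
      rw [hadd, ← mul_assoc, ← mul_assoc, hJJ, one_mul]
    rw [← h4, h2, mul_neg, neg_add_cancel]
  have hadX : ad X = -X := by
    have h1 : Xᵀ * J = -(J * X) := eq_neg_of_add_eq_zero_left hX2
    rw [hadd, mul_assoc, h1, mul_neg, ← mul_assoc, hJJ', one_mul]
  -- the skew invertible coefficient
  obtain ⟨θ, hθ⟩ : ∃ θ, θ = A0 - A0' := ⟨_, rfl⟩
  have hθC : θ ∈ 𝒞 := by
    rw [hθ]
    exact 𝒞.sub_mem hA0 hA0'
  have hadθ : ad θ = -θ := by
    rw [hθ, had_sub, hadA A0 A0' hAA, hadA A0' A0 (hinv A0 A0' hAA)]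
    abel
  have hθu : IsUnit θ.det := by
    rw [hθ]
    exact isUnit_iff_ne_zero.mpr hdet
  have hθθ : θ * θ⁻¹ = 1 := mul_nonsing_inv θ hθu
  have hθθ' : θ⁻¹ * θ = 1 := nonsing_inv_mul θ hθu
  have hθcomm : ∀ P ∈ CT 𝒞, θ⁻¹ * P = P * θ⁻¹ := by
    intro P hP
    have h1 := hP θ hθC
    calc θ⁻¹ * P = θ⁻¹ * (P * θ) * θ⁻¹ := by rw [mul_assoc, mul_assoc, hθθ, mul_one]
      _ = θ⁻¹ * θ * P * θ⁻¹ := by rw [h1]; noncomm_ring
      _ = P * θ⁻¹ := by rw [hθθ', one_mul]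
  have hθiC : θ⁻¹ ∈ 𝒞 := dcm hcomm hred _ hθcomm
  have hadθi : ad θ⁻¹ = -θ⁻¹ := by
    have h1 : ad θ⁻¹ * ad θ = 1 := by
      rw [← had_mul, hθθ, hadd, transpose_one, mul_one, hJJ']
    rw [hadθ] at h1
    have h2 := congrArg (fun M => M * θ⁻¹) h1
    simp only [one_mul, mul_neg, neg_mul] at h2
    rw [mul_assoc, hθθ, mul_one] at h2
    exact neg_eq_iff_eq_neg.mp h2
  -- the span of the brackets
  obtain ⟨K, hK⟩ : ∃ K, K = Submodule.span F {Z : Matrix (Fin N) (Fin N) F |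
      ∃ Y Y' : Matrix (Fin N) (Fin N) F, SULie J 𝒞 Y ∧ SULie J 𝒞 Y' ∧ Z = Y * Y' - Y' * Y} :=
    ⟨_, rfl⟩
  rw [← hK]
  have hbr : ∀ Y Y' : Matrix (Fin N) (Fin N) F, SULie J 𝒞 Y → SULie J 𝒞 Y' →
      Y * Y' - Y' * Y ∈ K := by
    intro Y Y' h1 h2
    rw [hK]
    exact Submodule.subset_span ⟨Y, Y', h1, h2, rfl⟩
  have hkey : ∀ P Q : Matrix (Fin N) (Fin N) F, P ∈ CT 𝒞 → (∀ A ∈ 𝒞, (P * A).trace = 0) →
      Q ∈ CT 𝒞 → (∀ A ∈ 𝒞, (Q * A).trace = 0) →
      (P * Q - Q * P) - ad (P * Q - Q * P) ∈ K := by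
    intro P Q hP hP0 hQ hQ0
    -- antisymmetric and symmetric parts
    have ha : ∀ P : Matrix (Fin N) (Fin N) F, P ∈ CT 𝒞 → (∀ A ∈ 𝒞, (P * A).trace = 0) →
        SULie J 𝒞 (P - ad P) ∧ SULie J 𝒞 (θ * (P + ad P)) ∧ SULie J 𝒞 (θ⁻¹ * (P + ad P)) := by
      intro P hP hP0
      have hs : P + ad P ∈ CT 𝒞 := (CT 𝒞).add_mem hP (had_CT P hP)
      have hsa : ad (P + ad P) = P + ad P := by
        rw [had_add, had_ad, add_comm]
      have hs0 : ∀ A ∈ 𝒞, ((P + ad P) * A).trace = 0 := by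
        intro A hA
        rw [add_mul, trace_add, hP0 A hA, had_tr0 P hP0 A hA, add_zero]
      have hgen : ∀ τ ∈ 𝒞, ad τ = -τ → SULie J 𝒞 (τ * (P + ad P)) := by
        intro τ hτ hadτ
        have hτCT : τ ∈ CT 𝒞 := fun D hD => hcomm τ hτ D hD
        refine hLie _ (mul_CT hτCT hs) ?_ ?_
        · rw [had_mul, hsa, hadτ, mul_neg, hs τ hτ]
        · intro A hA
          rw [mul_assoc, trace_mul_comm, mul_assoc]
          exact hs0 _ (𝒞.mul_mem hA hτ)
      refine ⟨hLie _ ((CT 𝒞).sub_mem hP (had_CT P hP)) ?_ ?_, hgen θ hθC hadθ, hgen _ hθiC hadθi⟩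
      · rw [had_sub, had_ad]
        abel
      · intro A hA
        rw [sub_mul, trace_sub, hP0 A hA, had_tr0 P hP0 A hA, sub_zero]
    obtain ⟨p1, -, p3⟩ := ha P hP hP0
    obtain ⟨q1, q2, -⟩ := ha Q hQ hQ0
    have k1 := hbr _ _ p1 q1
    have k2 := hbr _ _ p3 q2
    have hsP : P + ad P ∈ CT 𝒞 := (CT 𝒞).add_mem hP (had_CT P hP)
    have hsQ : Q + ad Q ∈ CT 𝒞 := (CT 𝒞).add_mem hQ (had_CT Q hQ)
    have e1 : θ⁻¹ * (P + ad P) * (θ * (Q + ad Q)) - θ * (Q + ad Q) * (θ⁻¹ * (P + ad P)) =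
        (P + ad P) * (Q + ad Q) - (Q + ad Q) * (P + ad P) := by
      have f1 : θ⁻¹ * (P + ad P) * (θ * (Q + ad Q)) = (P + ad P) * (Q + ad Q) := by
        rw [hθcomm _ hsP, mul_assoc, ← mul_assoc θ⁻¹ θ, hθθ', one_mul]
      have f2 : θ * (Q + ad Q) * (θ⁻¹ * (P + ad P)) = (Q + ad Q) * (P + ad P) := by
        rw [← hsQ θ hθC, mul_assoc, ← mul_assoc θ θ⁻¹, hθθ, one_mul]
      rw [f1, f2]
    rw [e1] at k2
    have e2 : ad (P * Q - Q * P) = ad Q * ad P - ad P * ad Q := by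
      rw [had_sub, had_mul, had_mul]
    have e3 : (P * Q - Q * P) - ad (P * Q - Q * P) = (1 / 2 : F) •
        (((P - ad P) * (Q - ad Q) - (Q - ad Q) * (P - ad P)) +
        ((P + ad P) * (Q + ad Q) - (Q + ad Q) * (P + ad P))) := by
      rw [e2]
      have e4 : ((P - ad P) * (Q - ad Q) - (Q - ad Q) * (P - ad P)) +
        ((P + ad P) * (Q + ad Q) - (Q + ad Q) * (P + ad P)) =
        (2 : F) • ((P * Q - Q * P) - (ad Q * ad P - ad P * ad Q)) := by
        rw [two_smul]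
        noncomm_ring
      rw [e4, smul_smul]
      norm_num
    rw [e3]
    exact K.smul_mem _ (K.add_mem k1 k2)
  -- conclusion
  have hspan := sl_span hcomm hred X hX1 hX3
  have hfin : X - ad X ∈ K := by
    refine Submodule.span_induction (p := fun Z _ => Z - ad Z ∈ K) ?_ ?_ ?_ ?_ hspan
    · rintro Z ⟨P, Q, ⟨hP, hP0⟩, ⟨hQ, hQ0⟩, rfl⟩
      exact hkey P Q hP hP0 hQ hQ0
    · have h0 : ad 0 = 0 := by rw [hadd, transpose_zero, mul_zero, zero_mul]
      rw [h0, sub_zero]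
      exact K.zero_mem
    · intro Z W _ _ h1 h2
      have h3 : Z + W - ad (Z + W) = (Z - ad Z) + (W - ad W) := by
        rw [had_add]
        abel
      rw [h3]
      exact K.add_mem h1 h2
    · intro c Z _ h1
      rw [had_smul, ← smul_sub]
      exact K.smul_mem c h1
  rw [hadX, sub_neg_eq_add] at hfin
  have h1 : X = (1 / 2 : F) • (X + X) := by
    rw [← two_smul F X, smul_smul]
    norm_num
  rw [h1]
  exact K.smul_mem _ hfin

end Pool.Agent.Y405.SU
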